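import Mathlib

namespace Pool.Agent.H.MP_fa793f_nt
open Polynomial Finset
open scoped Classical

section
variable {K : Type} [Field K] [IsAlgClosed K]

lemma one_root {P : K[X]} {D : ℕ} (hD : 1 ≤ D) (hP : P.natDegree = D)
    (h : P.roots.toFinset.card ≤ 1) : ∃ r, ∀ z, P.eval z = P.coeff D * (z - r) ^ D := by
  have sp := IsAlgClosed.splits P
  have hc : P.roots.card = D := by rw [← sp.natDegree_eq_card_roots, hP]
  obtain ⟨r, hr⟩ := card_le_one_iff_subset_singleton.1 h
  have : P.roots = Multiset.replicate D r := Multiset.eq_replicate.2 ⟨hc, fun b hb =>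
    mem_singleton.1 (hr (Multiset.mem_toFinset.2 hb))⟩
  refine ⟨r, fun z => ?_⟩
  conv_lhs => rw [sp.eq_prod_roots, this]
  simp [leadingCoeff, hP]

lemma three {D : ℕ} (hD : 1 ≤ D) (G H : K → K) (g h : K) (hc : ∀ z, G z = 0 → H z ≠ 0)
    {a1 a2 a3 r1 r2 r3 : K} (h12 : a1 ≠ a2) (h13 : a1 ≠ a3) (h23 : a2 ≠ a3)
    (c1 : g - a1 * h ≠ 0) (c2 : g - a2 * h ≠ 0) (c3 : g - a3 * h ≠ 0)
    (e1 : ∀ z, G z - a1 * H z = (g - a1 * h) * (z - r1) ^ D)
    (e2 : ∀ z, G z - a2 * H z = (g - a2 * h) * (z - r2) ^ D)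
    (e3 : ∀ z, G z - a3 * H z = (g - a3 * h) * (z - r3) ^ D)
    {a x y : K} (hx : G x - a * H x = 0) (hy : G y - a * H y = 0) : x = y := by
  have D0 : D ≠ 0 := by omega
  have dis : ∀ {b c z : K}, G z - b * H z = 0 → G z - c * H z = 0 → b = c := fun {b c z} p q => by
    by_contra hbc
    have hH : H z = 0 := by
      have : (b - c) * H z = 0 := by linear_combination q - p
      exact (mul_eq_zero.1 this).resolve_left (sub_ne_zero.2 hbc)
    exact hc z (by rw [hH] at p; simpa using p) hH
  have z1 : G r1 - a1 * H r1 = 0 := by rw [e1]; simp [D0]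
  have z2 : G r2 - a2 * H r2 = 0 := by rw [e2]; simp [D0]
  have z3 : G r3 - a3 * H r3 = 0 := by rw [e3]; simp [D0]
  have u1 : ∀ z, G z - a1 * H z = 0 → z = r1 := fun z p => by
    rw [e1] at p; simpa [c1, D0, sub_eq_zero] using p
  have u2 : ∀ z, G z - a2 * H z = 0 → z = r2 := fun z p => by
    rw [e2] at p; simpa [c2, D0, sub_eq_zero] using p
  have u3 : ∀ z, G z - a3 * H z = 0 → z = r3 := fun z p => by
    rw [e3] at p; simpa [c3, D0, sub_eq_zero] using p
  by_cases k1 : a = a1
  · subst k1; rw [u1 x hx, u1 y hy]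
  by_cases k2 : a = a2
  · subst k2; rw [u2 x hx, u2 y hy]
  have r12 : r1 ≠ r2 := fun e => h12 (dis z1 (e ▸ z2))
  have r32 : r3 - r2 ≠ 0 := sub_ne_zero.2 fun e => h23 (dis z2 (e ▸ z3))
  have r31 : r3 - r1 ≠ 0 := sub_ne_zero.2 fun e => h13 (dis z1 (e ▸ z3))
  have x2 : x - r2 ≠ 0 := sub_ne_zero.2 fun e => k2 (dis hx (e ▸ z2))
  have y2 : y - r2 ≠ 0 := sub_ne_zero.2 fun e => k2 (dis hy (e ▸ z2))
  have y1 : y - r1 ≠ 0 := sub_ne_zero.2 fun e => k1 (dis hy (e ▸ z1))
  have lin : ∀ b z, (a1 - a2) * (G z - b * H z) = (b - a2) * ((g - a1 * h) * (z - r1) ^ D) +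
      (a1 - b) * ((g - a2 * h) * (z - r2) ^ D) := fun b z => by rw [← e1, ← e2]; ring
  have rat : ∀ b z, G z - b * H z = 0 → z - r2 ≠ 0 →
      (b - a2) * (g - a1 * h) * ((z - r1) / (z - r2)) ^ D + (a1 - b) * (g - a2 * h) = 0 :=
    fun b z p q => by
      have := lin b z
      rw [p, mul_zero] at this
      have q' : (z - r2) ^ D ≠ 0 := pow_ne_zero _ q
      rw [div_pow]; field_simp; linear_combination -this
  set u := (x - r1) / (x - r2) with hu
  set v := (y - r1) / (y - r2) with hv
  set w := (r3 - r1) / (r3 - r2) with hw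
  have v0 : v ≠ 0 := div_ne_zero y1 y2
  have w0 : w ≠ 0 := div_ne_zero r31 r32
  have uv : u ^ D = v ^ D := by
    have : (a - a2) * (g - a1 * h) * (u ^ D - v ^ D) = 0 := by
      linear_combination rat a x hx x2 - rat a y hy y2
    exact sub_eq_zero.1 ((mul_eq_zero.1 this).resolve_left (mul_ne_zero (sub_ne_zero.2 k2) c1))
  have w1 : (a3 - a2) * (g - a1 * h) * (u / v * w) ^ D + (a1 - a3) * (g - a2 * h) = 0 := by
    rw [mul_pow, div_pow, uv, div_self (pow_ne_zero _ v0), one_mul]
    exact rat a3 r3 z3 r32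
  set t := u / v * w with ht
  have t1 : 1 - t ≠ 0 := fun e => by
    rw [← sub_eq_zero.1 e, one_pow] at w1
    exact mul_ne_zero (sub_ne_zero.2 h12) c3 (by linear_combination w1)
  have zz : (r1 - t * r2) / (1 - t) - r1 = t * ((r1 - t * r2) / (1 - t) - r2) := by
    field_simp; ring
  have := lin a3 ((r1 - t * r2) / (1 - t))
  rw [zz, mul_pow] at this
  have z0 := u3 ((r1 - t * r2) / (1 - t)) ((mul_eq_zero.1 (show (a1 - a2) * _ = 0 by
    rw [this]; linear_combination ((r1 - t * r2) / (1 - t) - r2) ^ D * w1)).resolve_left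
    (sub_ne_zero.2 h12))
  rw [z0] at zz
  have tw : t = w := by rw [hw, zz]; field_simp
  have : u = v := by
    have : u / v * w = 1 * w := by rw [one_mul]; exact tw
    exact (div_eq_one_iff_eq v0).1 (mul_right_cancel₀ w0 this)
  rw [hu, hv, div_eq_div_iff x2 y2] at this
  have : (r1 - r2) * (x - y) = 0 := by linear_combination this
  exact sub_eq_zero.1 ((mul_eq_zero.1 this).resolve_left (sub_ne_zero.2 r12))

/-- the fibre over `a` -/
noncomputable def fib (G H : K[X]) (a : K) : Finset K := (G - C a * H).roots.toFinset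

variable {G H : K[X]}

omit [IsAlgClosed K] in
lemma cop (hc : IsCoprime G H) (z : K) (h : G.eval z = 0) : H.eval z ≠ 0 := fun e => by
  obtain ⟨a, b, hab⟩ := hc
  have := congrArg (eval z) hab
  simp [h, e] at this

omit [IsAlgClosed K] in
lemma sub_ne (hc : IsCoprime G H) (hD : 1 ≤ max G.natDegree H.natDegree) (a : K) :
    G - C a * H ≠ 0 := fun e => by
  have e' : G = C a * H := sub_eq_zero.1 e
  have : IsUnit H := hc.isUnit_of_dvd' (e' ▸ Dvd.intro_left _ rfl) dvd_rfl
  have h0 := natDegree_eq_zero_of_isUnit this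
  have : G.natDegree ≤ 0 := by rw [e', ← h0]; exact natDegree_C_mul_le _ _
  omega

omit [IsAlgClosed K] in
lemma mem_fib (hc : IsCoprime G H) (hD : 1 ≤ max G.natDegree H.natDegree) (a x : K) :
    x ∈ fib G H a ↔ G.eval x - a * H.eval x = 0 := by
  simp [fib, sub_ne hc hD a]

lemma dich (hc : IsCoprime G H) (hD : 1 ≤ max G.natDegree H.natDegree) :
    (∀ a, (fib G H a).card ≤ 1) ∨
      ∀ S : Finset K, (S.filter (fun a => (fib G H a).card ≤ 1)).card ≤ 3 := by
  by_contra hcon
  push Not at hcon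
  obtain ⟨⟨a, ha⟩, S, hS⟩ := hcon
  set D := max G.natDegree H.natDegree with hDd
  have top : G.coeff D ≠ 0 ∨ H.coeff D ≠ 0 := by
    rcases le_total G.natDegree H.natDegree with h | h
    · right; rw [hDd, max_eq_right h]
      exact leadingCoeff_ne_zero.2 fun e => by rw [hDd, max_eq_right h, e] at hD; simp at hD
    · left; rw [hDd, max_eq_left h]
      exact leadingCoeff_ne_zero.2 fun e => by rw [hDd, max_eq_left h, e] at hD; simp at hD
  set T := S.filter (fun a => (fib G H a).card ≤ 1) with hT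
  have bad : (T.filter (fun b => G.coeff D - b * H.coeff D = 0)).card ≤ 1 := by
    refine card_le_one.2 fun b hb c hc' => ?_
    have p := (mem_filter.1 hb).2
    have q := (mem_filter.1 hc').2
    by_contra hbc
    have hH : H.coeff D = 0 := by
      have : (b - c) * H.coeff D = 0 := by linear_combination q - p
      exact (mul_eq_zero.1 this).resolve_left (sub_ne_zero.2 hbc)
    rcases top with h | h
    · exact h (by rw [hH] at p; simpa using p)
    · exact h hH
  have := card_filter_add_card_filter_not (s := T) (fun b => G.coeff D - b * H.coeff D = 0)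
  obtain ⟨a1, h1, a2, h2, a3, h3, h12, h13, h23⟩ := two_lt_card.1
    (show 2 < (T.filter (fun b => ¬ G.coeff D - b * H.coeff D = 0)).card by omega)
  have key : ∀ b ∈ T.filter (fun b => ¬ G.coeff D - b * H.coeff D = 0), ∃ r, ∀ z,
      G.eval z - b * H.eval z = (G.coeff D - b * H.coeff D) * (z - r) ^ D := fun b hb => by
    have p := mem_filter.1 hb
    have dg : (G - C b * H).natDegree = D := natDegree_eq_of_le_of_coeff_ne_zero
      ((natDegree_sub_le _ _).trans (max_le_max le_rfl (natDegree_C_mul_le _ _)))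
      (by simpa using p.2)
    simpa using one_root hD dg (mem_filter.1 p.1).2
  obtain ⟨r1, e1⟩ := key a1 h1
  obtain ⟨r2, e2⟩ := key a2 h2
  obtain ⟨r3, e3⟩ := key a3 h3
  obtain ⟨x, hx, y, hy, hxy⟩ := one_lt_card.1 ha
  exact hxy (three hD (fun z => G.eval z) (fun z => H.eval z) _ _ (cop hc) h12 h13 h23
    (mem_filter.1 h1).2 (mem_filter.1 h2).2 (mem_filter.1 h3).2 e1 e2 e3
    ((mem_fib hc hD _ _).1 hx) ((mem_fib hc hD _ _).1 hy))

omit [IsAlgClosed K] in
lemma card_pre (hc : IsCoprime G H) (hD : 1 ≤ max G.natDegree H.natDegree) (S : Finset K) :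
    (S.biUnion (fib G H)).card = ∑ a ∈ S, (fib G H a).card := by
  refine card_biUnion fun a _ b _ hab => disjoint_left.2 fun x p q => hab ?_
  rw [mem_fib hc hD] at p q
  have hH : H.eval x ≠ 0 := fun e => cop hc x (by rw [e] at p; simpa using p) e
  exact mul_right_cancel₀ hH (by linear_combination q - p)

/-- exponential growth of unbounded backward orbits -/
lemma growth (hc : IsCoprime G H) (hD : 1 ≤ max G.natDegree H.natDegree) (S : ℕ → Finset K)
    (hS : ∀ n, S (n + 1) = (S n).biUnion (fib G H))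
    (hu : ¬ BddAbove (Set.range fun n => (S n).card)) :
    ∃ m, ∀ j, 2 ^ j ≤ (S (m + j)).card := by
  rcases dich hc hD with h | h
  · exfalso
    refine hu ⟨(S 0).card, ?_⟩
    rintro _ ⟨n, rfl⟩
    induction n with
    | zero => exact le_rfl
    | succ n ih =>
      refine le_trans ?_ ih
      simp only
      rw [hS, card_pre hc hD]
      exact (sum_le_card_nsmul _ _ 1 fun a _ => h a).trans (by simp)
  · obtain ⟨_, ⟨m, rfl⟩, hm⟩ := not_bddAbove_iff.1 hu 6
    have step : ∀ n, 2 * (S n).card ≤ (S (n + 1)).card + 6 := fun n => by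
      have h1 := card_filter_add_card_filter_not (s := S n) (fun a => (fib G H a).card ≤ 1)
      have h2 := h (S n)
      have h3 : ((S n).filter (fun a => ¬ (fib G H a).card ≤ 1)).card • 2 ≤
          ∑ a ∈ S n, (fib G H a).card :=
        (card_nsmul_le_sum _ _ 2 fun a ha => by have := (mem_filter.1 ha).2; omega).trans
          (sum_le_sum_of_subset (filter_subset _ _))
      rw [hS, card_pre hc hD]
      simp only [smul_eq_mul] at h3
      omega
    refine ⟨m, fun j => ?_⟩
    have : 2 ^ j + 6 ≤ (S (m + j)).card := by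
      induction j with
      | zero => simp only [pow_zero, add_zero] at hm ⊢; omega
      | succ j ih => have := step (m + j); rw [← add_assoc, pow_succ]; omega
    omega

end

end Pool.Agent.H.MP_fa793f_nt
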