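import Pool.Agent.H.MP_fa793f_nt.A

namespace Pool.Agent.H.MP_fa793f_nt
open Polynomial Finset
open scoped Classical

variable {F : Type} [Field F]

/-- `h^m a(g/h)` -/
noncomputable def hom (g h : F[X]) (m : ℕ) (a : F[X]) : F[X] :=
  ∑ i ∈ range (m + 1), C (a.coeff i) * g ^ i * h ^ (m - i)

noncomputable def tr (g h f : F[X]) : F[X] := hom g h f.natDegree f

noncomputable def facs (f : F[X]) : Finset F[X] :=
  (UniqueFactorizationMonoid.normalizedFactors f).toFinset

noncomputable def delta (f : F[X]) : ℕ := ∑ p ∈ facs f, p.natDegree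

section
variable {L : Type} [Field L] [Algebra F L]

lemma hom_ne {g h a : F[X]} {m : ℕ} (ha : a.natDegree ≤ m) (φ : F[X] →ₐ[F] L) (hx : φ h ≠ 0) :
    φ (hom g h m a) = φ h ^ m * aeval (φ g / φ h) a := by
  rw [hom, map_sum, aeval_eq_sum_range' (Nat.lt_succ_of_le ha), mul_sum]
  refine sum_congr rfl fun i hi => ?_
  obtain ⟨e, rfl⟩ := Nat.exists_eq_add_of_le (Nat.lt_succ_iff.1 (mem_range.1 hi))
  rw [Nat.add_sub_cancel_left, map_mul, map_mul, map_pow, map_pow, ← algebraMap_eq, φ.commutes,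
    Algebra.smul_def, div_pow, pow_add]
  have := pow_ne_zero i hx
  field_simp

lemma hom_zero {g h a : F[X]} {m : ℕ} (x : L) (hx : aeval x h = 0) :
    aeval x (hom g h m a) = algebraMap F L (a.coeff m) * aeval x g ^ m := by
  rw [hom, map_sum, sum_range_succ, sum_eq_zero]
  · simp
  · intro i hi
    have := mem_range.1 hi
    simp [hx, show m - i ≠ 0 by omega]

lemma cop' {g h : F[X]} (hc : IsCoprime g h) (z : L) (e : aeval z h = 0) : aeval z g ≠ 0 :=
  fun e' => by
    obtain ⟨a, b, hab⟩ := hc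
    have := congrArg (aeval z) hab
    simp [e, e'] at this

end

abbrev Kb (F : Type) [Field F] := AlgebraicClosure F

noncomputable def Rt (f : F[X]) : Finset (Kb F) := (f.aroots (Kb F)).toFinset

lemma mem_Rt {f : F[X]} (hf : f ≠ 0) (x : Kb F) : x ∈ Rt f ↔ aeval x f = 0 := by
  simp [Rt, hf]

section
variable {g h : F[X]} (hc : IsCoprime g h) (hD : 1 ≤ max g.natDegree h.natDegree)
include hc hD

lemma mem_fib' (a x : Kb F) : x ∈ fib (g.map (algebraMap F (Kb F))) (h.map (algebraMap F (Kb F))) a ↔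
    aeval x g - a * aeval x h = 0 := by
  have := mem_fib (hc.map (mapRingHom (algebraMap F (Kb F)))) (by simpa using hD) a x
  simpa only [coe_mapRingHom, eval_map_algebraMap] using this

lemma tr_root {f : F[X]} (hf : f ≠ 0) (x : Kb F) : aeval x (tr g h f) = 0 ↔
    x ∈ (Rt f).biUnion (fib (g.map (algebraMap F (Kb F))) (h.map (algebraMap F (Kb F)))) := by
  simp only [mem_biUnion, mem_Rt hf, mem_fib' hc hD]
  by_cases hx : aeval x h = 0
  · have := cop' hc x hx
    rw [tr, hom_zero x hx]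
    simp [hx, this, hf]
  · rw [tr, hom_ne le_rfl (aeval x) hx]
    simp only [mul_eq_zero, pow_eq_zero_iff', hx, false_and, false_or]
    constructor
    · intro e; exact ⟨_, e, by field_simp; ring⟩
    · rintro ⟨a, h1, h2⟩
      rwa [show aeval x g / aeval x h = a by field_simp; linear_combination h2]

lemma tr_ne {f : F[X]} (hf : f ≠ 0) : tr g h f ≠ 0 := fun e => by
  obtain ⟨x, hx⟩ := Infinite.exists_notMem_finset
    ((Rt f).biUnion (fib (g.map (algebraMap F (Kb F))) (h.map (algebraMap F (Kb F)))))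
  exact hx ((tr_root hc hD hf x).1 (by simp [e]))

lemma iter_ne {f : F[X]} (hf : f ≠ 0) : ∀ n, (tr g h)^[n] f ≠ 0
  | 0 => hf
  | n + 1 => by rw [Function.iterate_succ_apply']; exact tr_ne hc hD (iter_ne hf n)

lemma Rt_succ {f : F[X]} (hf : f ≠ 0) (n : ℕ) : Rt ((tr g h)^[n + 1] f) =
    (Rt ((tr g h)^[n] f)).biUnion
      (fib (g.map (algebraMap F (Kb F))) (h.map (algebraMap F (Kb F)))) := by
  ext x
  rw [mem_Rt (iter_ne hc hD hf _), Function.iterate_succ_apply', tr_root hc hD (iter_ne hc hD hf n)]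

end

lemma mem_facs {f p : F[X]} (hf : f ≠ 0) : p ∈ facs f ↔ Irreducible p ∧ p.Monic ∧ p ∣ f := by
  rw [facs, Multiset.mem_toFinset, Polynomial.mem_normalizedFactors_iff hf]

lemma delta_eq [Finite F] {f : F[X]} (hf : f ≠ 0) : delta f = (Rt f).card := by
  have e : Rt f = (facs f).biUnion Rt := by
    ext x
    rw [mem_Rt hf, mem_biUnion]
    constructor
    · intro hx
      have hi : IsIntegral F x := Algebra.IsIntegral.isIntegral x
      exact ⟨minpoly F x, (mem_facs hf).2 ⟨minpoly.irreducible hi, minpoly.monic hi,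
        minpoly.dvd F x hx⟩, (mem_Rt (minpoly.ne_zero hi) x).2 (minpoly.aeval F x)⟩
    · rintro ⟨p, hp, hx⟩
      obtain ⟨h1, _, q, rfl⟩ := (mem_facs hf).1 hp
      rw [map_mul, (mem_Rt h1.ne_zero x).1 hx, zero_mul]
  rw [e, card_biUnion, delta]
  · refine sum_congr rfl fun p hp => ?_
    have h1 := ((mem_facs hf).1 hp).1
    have sep : (p.map (algebraMap F (Kb F))).Separable :=
      (PerfectField.separable_of_irreducible h1).map
    rw [Rt, Multiset.toFinset_card_of_nodup (nodup_roots sep),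
      ← (IsAlgClosed.splits _).natDegree_eq_card_roots, natDegree_map]
  · intro p hp q hq hpq
    refine disjoint_left.2 fun x h1 h2 => hpq ?_
    have a := (mem_facs hf).1 hp
    have b := (mem_facs hf).1 hq
    rw [minpoly.eq_of_irreducible_of_monic a.1 ((mem_Rt a.1.ne_zero x).1 h1) a.2.1,
      minpoly.eq_of_irreducible_of_monic b.1 ((mem_Rt b.1.ne_zero x).1 h2) b.2.1]

lemma count [Fintype F] (S : Finset F[X]) (t : ℕ) :
    t * S.card ≤ t * Fintype.card F ^ t + ∑ p ∈ S, p.natDegree := by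
  have h1 : (S.filter (fun p => p.natDegree < t)).card ≤ Fintype.card F ^ t := by
    have := card_le_card_of_injOn (s := S.filter (fun p => p.natDegree < t))
      (t := (univ : Finset (Fin t → F))) (fun p i => p.coeff i) (fun _ _ => mem_univ _) ?_
    · simpa using this
    intro p hp q hq e
    have a := (mem_filter.1 (mem_coe.1 hp)).2
    have b := (mem_filter.1 (mem_coe.1 hq)).2
    ext i
    by_cases hi : i < t
    · exact congrFun e ⟨i, hi⟩
    · rw [coeff_eq_zero_of_natDegree_lt (by omega), coeff_eq_zero_of_natDegree_lt (by omega)]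
  have h2 : (S.filter (fun p => ¬ p.natDegree < t)).card * t ≤ ∑ p ∈ S, p.natDegree :=
    (card_nsmul_le_sum _ _ t fun a ha => by have := (mem_filter.1 ha).2; omega).trans
      (sum_le_sum_of_subset (filter_subset _ _))
  rw [← card_filter_add_card_filter_not (s := S) (fun p => p.natDegree < t), mul_add]
  exact add_le_add (Nat.mul_le_mul_left _ h1) (by rw [mul_comm]; exact h2)

theorem main [Fintype F] {g h : F[X]} (hc : IsCoprime g h) (hD : 1 ≤ max g.natDegree h.natDegree)
    {f : F[X]} (hf : f ≠ 0) :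
    (∃ c : ℝ, 0 < c ∧ ∀ᶠ n : ℕ in Filter.atTop,
      c * n ≤ (delta ((tr g h)^[n] f) : ℝ) / ((facs ((tr g h)^[n] f)).card : ℝ)) ↔
    ¬ BddAbove (Set.range fun n => delta ((tr g h)^[n] f)) := by
  constructor
  · rintro ⟨c, hc0, hev⟩ ⟨M, hM⟩
    obtain ⟨n, h1, h2⟩ := (hev.and (Filter.eventually_gt_atTop ⌈(M : ℝ) / c⌉₊)).exists
    have h3 : (delta ((tr g h)^[n] f) : ℝ) ≤ M := by exact_mod_cast hM ⟨n, rfl⟩
    have h4 : (delta ((tr g h)^[n] f) : ℝ) / ((facs ((tr g h)^[n] f)).card : ℝ) ≤
        delta ((tr g h)^[n] f) := by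
      rcases Nat.eq_zero_or_pos (facs ((tr g h)^[n] f)).card with e | e
      · simp [e]
      · exact div_le_self (Nat.cast_nonneg _) (by exact_mod_cast e)
    have h5 : (M : ℝ) / c < n := Nat.lt_of_ceil_lt h2
    rw [div_lt_iff₀ hc0] at h5
    linarith
  · intro hu
    simp only [delta_eq (iter_ne hc hD hf _)] at hu
    obtain ⟨m, hm⟩ := growth (hc.map (mapRingHom (algebraMap F (Kb F)))) (by simpa using hD)
      (fun n => Rt ((tr g h)^[n] f)) (Rt_succ hc hD hf) hu
    set q := Fintype.card F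
    refine ⟨1 / (4 * (q + 1)), by positivity,
      (Filter.eventually_ge_atTop (2 * m + 2 * (q + 1))).mono fun n hn => ?_⟩
    obtain ⟨j, rfl⟩ : ∃ j, n = m + j := ⟨n - m, by omega⟩
    have h1 := hm j
    rw [← delta_eq (iter_ne hc hD hf _)] at h1
    set t := j / (q + 1) with ht
    have h2 := count (facs ((tr g h)^[m + j] f)) t
    have h3 : t * q ^ t ≤ 2 ^ j := calc
      t * q ^ t ≤ 2 ^ t * (2 ^ q) ^ t :=
        Nat.mul_le_mul Nat.lt_two_pow_self.le (Nat.pow_le_pow_left Nat.lt_two_pow_self.le _)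
      _ = 2 ^ (t * (q + 1)) := by rw [← pow_mul, ← pow_add]; congr 1; ring
      _ ≤ 2 ^ j := Nat.pow_le_pow_right (by norm_num) (Nat.div_mul_le_self _ _)
    have h4 : j < (t + 1) * (q + 1) := by
      rw [mul_comm]; exact Nat.lt_mul_div_succ j (by omega)
    change _ ≤ t * q ^ t + delta _ at h2
    set d := delta ((tr g h)^[m + j] f) with hd
    set N := (facs ((tr g h)^[m + j] f)).card with hN
    have N0 : 0 < N := by
      by_contra e
      have : facs ((tr g h)^[m + j] f) = ∅ := card_eq_zero.1 (by omega)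
      have : d = 0 := by rw [hd, delta, this, sum_empty]
      have := Nat.one_le_two_pow (n := j)
      omega
    have h5 : (m + j) * N ≤ d * (4 * (q + 1)) := by
      have a : m + j ≤ 2 * (t * (q + 1)) := by nlinarith
      have b : t * N ≤ 2 * d := by omega
      calc (m + j) * N ≤ 2 * (t * (q + 1)) * N := Nat.mul_le_mul_right _ a
        _ = 2 * (q + 1) * (t * N) := by ring
        _ ≤ 2 * (q + 1) * (2 * d) := Nat.mul_le_mul_left _ b
        _ = _ := by ring
    rw [one_div_mul_eq_div, div_le_div_iff₀ (by positivity) (by exact_mod_cast N0)]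
    exact_mod_cast h5

end Pool.Agent.H.MP_fa793f_nt
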