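import Pool.Agent.H.MP_fa793f_nt.B

namespace Pool.Agent.H.MP_fa793f_nt
open Polynomial Finset
open scoped Classical

variable {F : Type} [Field F]

noncomputable def comp (P Q : RatFunc F) : RatFunc F := aeval Q P.num / aeval Q P.denom

noncomputable def iter (R : RatFunc F) : ℕ → RatFunc F
  | 0 => RatFunc.X
  | n + 1 => comp (iter R n) R

def Sol (P : RatFunc F) (a : Kb F) : Set (Kb F) :=
  {x | aeval x P.denom ≠ 0 ∧ aeval x P.num / aeval x P.denom = a}

noncomputable abbrev fr (g h : F[X]) : RatFunc F :=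
  algebraMap F[X] (RatFunc F) g / algebraMap F[X] (RatFunc F) h

lemma sol_of {P : RatFunc F} {A B : F[X]} (hP : P = fr A B) {x a : Kb F} (hB : aeval x B ≠ 0)
    (h : aeval x A = a * aeval x B) : x ∈ Sol P a := by
  have B0 : B ≠ 0 := fun e => hB (by simp [e])
  obtain ⟨w, hw⟩ := (RatFunc.denom_dvd B0).2 ⟨A, hP⟩
  have d0 : aeval x P.denom ≠ 0 := fun e => hB (by rw [hw, map_mul, e, zero_mul])
  have := congrArg (aeval x) ((RatFunc.num_mul_eq_mul_denom_iff B0).2 hP)
  rw [map_mul, map_mul, h] at this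
  refine ⟨d0, ?_⟩
  rw [div_eq_iff d0]
  exact mul_right_cancel₀ hB (by linear_combination this)

lemma of_sol {P : RatFunc F} {A B : F[X]} (hP : P = fr A B) (B0 : B ≠ 0) {x a : Kb F}
    (h : x ∈ Sol P a) : aeval x A = a * aeval x B := by
  have := congrArg (aeval x) ((RatFunc.num_mul_eq_mul_denom_iff B0).2 hP)
  rw [map_mul, map_mul, (div_eq_iff h.1).1 h.2] at this
  exact mul_right_cancel₀ h.1 (by linear_combination -this)

lemma hom_rat {g h : F[X]} (h0 : h ≠ 0) {a : F[X]} {m : ℕ} (ha : a.natDegree ≤ m) :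
    algebraMap F[X] (RatFunc F) (hom g h m a) =
      algebraMap F[X] (RatFunc F) h ^ m * aeval (fr g h) a :=
  hom_ne ha (IsScalarTower.toAlgHom F F[X] (RatFunc F)) (RatFunc.algebraMap_ne_zero h0)

lemma comp_fr {g h : F[X]} (h0 : h ≠ 0) (P : RatFunc F) :
    comp P (fr g h) = fr (hom g h (max P.num.natDegree P.denom.natDegree) P.num)
      (hom g h (max P.num.natDegree P.denom.natDegree) P.denom) := by
  conv_rhs => rw [fr, hom_rat h0 (le_max_left _ _), hom_rat h0 (le_max_right _ _),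
    mul_div_mul_left _ _ (pow_ne_zero _ (RatFunc.algebraMap_ne_zero h0))]
  rfl

lemma pre_sol {g h : F[X]} (P : RatFunc F) {x a : Kb F} (hx : aeval x h ≠ 0)
    (hs : aeval x g / aeval x h ∈ Sol P a) : x ∈ Sol (comp P (fr g h)) a := by
  have h0 : h ≠ 0 := fun e => hx (by simp [e])
  refine sol_of (comp_fr h0 P) ?_ ?_
  · rw [hom_ne (le_max_right _ _) (aeval x) hx]
    exact mul_ne_zero (pow_ne_zero _ hx) hs.1
  · rw [hom_ne (le_max_right _ _) (aeval x) hx, hom_ne (le_max_left _ _) (aeval x) hx,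
      (div_eq_iff hs.1).1 hs.2]
    ring

lemma sol_pre {g h : F[X]} (hc : IsCoprime g h) (h0 : h ≠ 0) (P : RatFunc F) {x a : Kb F}
    (ha : a ∉ Set.range (algebraMap F (Kb F))) (hs : x ∈ Sol (comp P (fr g h)) a) :
    aeval x h ≠ 0 ∧ aeval x g / aeval x h ∈ Sol P a := by
  set m := max P.num.natDegree P.denom.natDegree with hm
  have B0 : hom g h m P.denom ≠ 0 := fun e => by
    rw [comp_fr h0, ← hm, e, fr, map_zero, div_zero] at hs
    exact ha ⟨0, by simpa using hs.2⟩
  have key := of_sol (comp_fr h0 P) B0 hs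
  rw [← hm] at key
  have hx : aeval x h ≠ 0 := fun e => by
    rw [hom_zero x e, hom_zero x e, ← mul_assoc] at key
    have k2 := mul_right_cancel₀ (pow_ne_zero _ (cop' hc x e)) key
    by_cases hb : P.denom.coeff m = 0
    · rw [hb, map_zero, mul_zero, map_eq_zero] at k2
      rcases le_total P.num.natDegree P.denom.natDegree with l | l
      · rw [hm, max_eq_right l] at hb
        exact leadingCoeff_ne_zero.2 P.denom_ne_zero hb
      · rw [hm, max_eq_left l] at k2 hb
        rw [leadingCoeff_eq_zero.1 k2, natDegree_zero] at l hb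
        rw [← Nat.le_zero.1 l] at hb
        exact leadingCoeff_ne_zero.2 P.denom_ne_zero hb
    · exact ha ⟨P.num.coeff m / P.denom.coeff m, by
        rw [map_div₀, k2, mul_div_assoc, div_self ((_root_.map_ne_zero _).2 hb), mul_one]⟩
  refine ⟨hx, ?_⟩
  rw [hom_ne (le_max_right _ _) (aeval x) hx, hom_ne (le_max_left _ _) (aeval x) hx,
    mul_left_comm] at key
  have k2 := mul_left_cancel₀ (pow_ne_zero _ hx) key
  have d0 : aeval (aeval x g / aeval x h) P.denom ≠ 0 := fun e =>
    cop' P.isCoprime_num_denom _ e (by rw [k2, e, mul_zero])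
  exact ⟨d0, by rw [k2, mul_div_assoc, div_self d0, mul_one]⟩

lemma h_ne {g h : F[X]} (hc : IsCoprime g h) (hD : 1 ≤ max g.natDegree h.natDegree)
    : h ≠ 0 := fun e => by
  subst e
  rw [natDegree_eq_zero_of_isUnit (isCoprime_zero_right.1 hc)] at hD
  simp at hD

theorem unb [Finite F] {g h : F[X]} (hc : IsCoprime g h)
    (hD : 1 ≤ max g.natDegree h.natDegree) {f : F[X]} (hf : f ≠ 0) {a : Kb F}
    (hr : aeval a f = 0) (ha : a ∉ Set.range (algebraMap F (Kb F)))
    (hu : ¬ BddAbove (Set.range fun n => (Sol (iter (fr g h) n) a).ncard)) :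
    ¬ BddAbove (Set.range fun n => delta ((tr g h)^[n] f)) := by
  have sub : ∀ n, Sol (iter (fr g h) n) a ⊆ Rt ((tr g h)^[n] f) := by
    intro n
    induction n with
    | zero =>
      intro x hx
      have : x = a := by simpa [iter, Sol] using hx
      exact mem_coe.2 ((mem_Rt hf x).2 (this ▸ hr))
    | succ n ih =>
      intro x hx
      obtain ⟨h1, h2⟩ := sol_pre hc (h_ne hc hD) _ ha hx
      rw [Rt_succ hc hD hf, mem_coe, mem_biUnion]
      exact ⟨_, ih h2, (mem_fib' hc hD _ _).2 (by field_simp; ring)⟩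
  rintro ⟨M, hM⟩
  refine hu ⟨M, ?_⟩
  rintro _ ⟨n, rfl⟩
  refine le_trans ?_ (hM ⟨n, rfl⟩)
  simp only
  rw [delta_eq (iter_ne hc hD hf n), ← Set.ncard_coe_finset]
  exact Set.ncard_le_ncard (sub n) (finite_toSet _)

/-! the example over the field with three elements -/

instance fact3 : Fact (Nat.Prime 3) := ⟨by norm_num⟩

noncomputable abbrev g3 : (ZMod 3)[X] := X ^ 2
noncomputable abbrev h3 : (ZMod 3)[X] := X ^ 2 + 1

lemma cop3 : IsCoprime g3 h3 := ⟨-1, 1, by ring⟩

lemma deg3 : h3.natDegree = 2 := by simpa using natDegree_X_pow_add_C (R := ZMod 3) (n := 2) (r := 1)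

lemma D3 : 1 ≤ max g3.natDegree h3.natDegree := by rw [deg3]; simp

lemma mon3 : h3.Monic := by simpa using monic_X_pow_add_C (R := ZMod 3) (n := 2) 1 (by norm_num)

lemma den3 : (fr g3 h3).denom = h3 ∧ (fr g3 h3).num = g3 := by
  have e := (RatFunc.num_mul_eq_mul_denom_iff (x := fr g3 h3) mon3.ne_zero).2 rfl
  have d : (fr g3 h3).denom = h3 := eq_of_monic_of_associated (RatFunc.monic_denom _) mon3
    (associated_of_dvd_dvd (RatFunc.denom_div_dvd _ _)
      (cop3.symm.dvd_of_dvd_mul_left (e ▸ Dvd.intro_left _ rfl)))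
  exact ⟨d, mul_right_cancel₀ mon3.ne_zero (by rw [e, d])⟩

lemma three0 : (3 : Kb (ZMod 3)) = 0 := by
  have := map_natCast (algebraMap (ZMod 3) (Kb (ZMod 3))) 3
  rw [show ((3 : ℕ) : ZMod 3) = 0 from rfl, map_zero] at this
  exact_mod_cast this.symm

lemma noncrit : ¬ BddAbove (Set.range fun n => (Sol (iter (fr g3 h3) n) 1).ncard) := by
  have zero : ∀ n, (0 : Kb (ZMod 3)) ∈ Sol (iter (fr g3 h3) n) 0 := by
    intro n
    induction n with
    | zero => simp [iter, Sol]
    | succ n ih => exact pre_sol _ (by simp) (by simpa using ih)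
  have fin : ∀ n, (Sol (iter (fr g3 h3) n) 1).Finite := fun n => by
    have w : (iter (fr g3 h3) n).num - (iter (fr g3 h3) n).denom ≠ 0 := fun e => by
      have := (zero n).2
      rw [sub_eq_zero.1 e, div_self (zero n).1] at this
      exact one_ne_zero this
    refine (finite_toSet (Rt _)).subset fun x hx => mem_coe.2 ((mem_Rt w x).2 ?_)
    rw [map_sub, (div_eq_iff hx.1).1 hx.2]; ring
  obtain ⟨i, hi⟩ := IsAlgClosed.exists_pow_nat_eq (-1 : Kb (ZMod 3)) (by norm_num : 0 < 2)
  have two : (2 : Kb (ZMod 3)) ≠ 0 := fun e => one_ne_zero (by linear_combination three0 - e :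
    (1 : Kb (ZMod 3)) = 0)
  have ex : ∀ j, ∃ U : Finset (Kb (ZMod 3)), 2 ^ j ≤ U.card ∧
      ∀ y ∈ U, y ∈ Sol (iter (fr g3 h3) (j + 2)) 1 ∧ y ≠ 0 ∧ y ^ 2 ≠ 1 := by
    intro j
    induction j with
    | zero =>
      refine ⟨{i}, by simp, fun y hy => ?_⟩
      rw [mem_singleton.1 hy]
      have i0 : i ≠ 0 := fun e => by simp [e] at hi
      refine ⟨?_, i0, fun e => two (by linear_combination hi - e)⟩
      have e1 : iter (fr g3 h3) 1 = fr g3 h3 := by simp [iter, comp]
      have hh : aeval i h3 = 0 := by simp [hi]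
      change i ∈ Sol (comp (iter (fr g3 h3) 1) (fr g3 h3)) 1
      rw [e1]
      refine sol_of (comp_fr mon3.ne_zero _) ?_ ?_
      · rw [hom_zero i hh, den3.1, den3.2, deg3]; simp [i0, coeff_one]
      · rw [hom_zero i hh, hom_zero i hh, den3.1, den3.2, deg3]; simp [coeff_one]
    | succ j ih =>
      obtain ⟨U, h1, h2⟩ := ih
      refine ⟨U.biUnion (fib (g3.map (algebraMap _ _)) (h3.map (algebraMap _ _))), ?_, ?_⟩
      · have := card_pre (cop3.map (mapRingHom (algebraMap (ZMod 3) (Kb (ZMod 3)))))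
          (by simpa only [coe_mapRingHom, natDegree_map] using D3) U
        simp only [coe_mapRingHom] at this
        rw [this, pow_succ]
        refine (Nat.mul_le_mul_right 2 h1).trans (card_nsmul_le_sum _ _ 2 fun y hy => ?_)
        obtain ⟨_, y0, y1⟩ := h2 y hy
        have y2 : 1 - y ≠ 0 := fun e => y1 (by rw [← sub_eq_zero.1 e]; simp)
        obtain ⟨s, hs⟩ := IsAlgClosed.exists_pow_nat_eq (y / (1 - y)) (by norm_num : 0 < 2)
        rw [eq_div_iff y2] at hs
        refine one_lt_card.2 ⟨s, (mem_fib' cop3 D3 _ _).2 ?_, -s, (mem_fib' cop3 D3 _ _).2 ?_,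
          fun e => y0 ?_⟩
        · simp; linear_combination hs
        · simp; linear_combination hs
        · have : s = 0 := (mul_eq_zero.1 (show 2 * s = 0 by linear_combination e)).resolve_left two
          rw [← hs, this]; simp
      · intro x hx
        obtain ⟨y, hy, hx⟩ := mem_biUnion.1 hx
        obtain ⟨y3, y0, y1⟩ := h2 y hy
        rw [mem_fib' cop3 D3] at hx
        have hh : aeval x h3 ≠ 0 := fun e => cop' cop3 x e (by rw [e] at hx; simpa using hx)
        refine ⟨pre_sol _ hh ?_, fun e => y0 ?_, fun e => y1 ?_⟩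
        · rwa [show aeval x g3 / aeval x h3 = y by field_simp; linear_combination hx]
        · simpa [e] using hx
        · simp only [map_pow, aeval_X, map_add, map_one, e] at hx
          have : y = -1 := by linear_combination hx + y * three0 - three0 + three0 - (1 : Kb (ZMod 3)) * three0 + three0
          rw [this]; simp
  rintro ⟨M, hM⟩
  obtain ⟨U, h1, h2⟩ := ex M
  have := (Set.ncard_le_ncard (fun y hy => (h2 y hy).1) (fin _)).trans (hM ⟨M + 2, rfl⟩)
  rw [Set.ncard_coe_finset] at this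
  have := Nat.lt_two_pow_self (n := M)
  omega

lemma bdd3 : BddAbove (Set.range fun n => delta ((tr g3 h3)^[n] (X * (X - 1)))) := by
  have f0 : (X * (X - 1) : (ZMod 3)[X]) ≠ 0 :=
    mul_ne_zero X_ne_zero (by simpa using X_sub_C_ne_zero (1 : ZMod 3))
  have sub : ∀ n, Rt ((tr g3 h3)^[n] (X * (X - 1))) ⊆ {0, 1} ∧
      Rt ((tr g3 h3)^[n + 1] (X * (X - 1))) ⊆ {0} := by
    have st : ∀ n, Rt ((tr g3 h3)^[n] (X * (X - 1))) ⊆ {0, 1} →
        Rt ((tr g3 h3)^[n + 1] (X * (X - 1))) ⊆ {0} := fun n h x hx => by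
      rw [Rt_succ cop3 D3 f0] at hx
      obtain ⟨y, hy, hx⟩ := mem_biUnion.1 hx
      rw [mem_fib' cop3 D3] at hx
      rcases mem_insert.1 (h hy) with e | e
      · simpa [e] using hx
      · simp [mem_singleton.1 e] at hx
    intro n
    induction n with
    | zero =>
      have : Rt ((tr g3 h3)^[0] (X * (X - 1))) ⊆ {0, 1} := fun x hx => by
        simpa [sub_eq_zero] using (mem_Rt f0 x).1 hx
      exact ⟨this, st 0 this⟩
    | succ n ih =>
      have : Rt ((tr g3 h3)^[n + 1] (X * (X - 1))) ⊆ {0, 1} := ih.2.trans (by simp)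
      exact ⟨this, st _ this⟩
  refine ⟨2, ?_⟩
  rintro _ ⟨n, rfl⟩
  simp only
  rw [delta_eq (iter_ne cop3 D3 f0 n)]
  exact (card_le_card (sub n).1).trans card_le_two

end Pool.Agent.H.MP_fa793f_nt
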